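import Pool.Agent.Y745.SW.DefsA

set_option autoImplicit false

/-!
SW project, SM: sums of the squares of the coefficients of the prime sums.
-/

namespace Pool.Agent.Y274.SW

open Filter Topology MeasureTheory Complex Pool.Agent.Y745.SW

noncomputable section

/-- the constant in Chebyshev's bound -/
def c0 : ℝ := Real.log 4 + 4

lemma c0_pos : 0 < c0 := by
  unfold c0
  have : 0 ≤ Real.log 4 := Real.log_nonneg (by norm_num)
  linarith

lemma S2 (x : ℝ) (hx : 1 ≤ x) (X : ℕ) :
    ∑ n ∈ (Finset.Icc 1 X).filter (fun n : ℕ => (n : ℝ) ≤ x), ArithmeticFunction.vonMangoldt n ^ 2 ≤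
      c0 * (x * Real.log x) := by
  have hlx : 0 ≤ Real.log x := Real.log_nonneg hx
  calc ∑ n ∈ (Finset.Icc 1 X).filter (fun n : ℕ => (n : ℝ) ≤ x),
        ArithmeticFunction.vonMangoldt n ^ 2
      ≤ ∑ n ∈ (Finset.Icc 1 X).filter (fun n : ℕ => (n : ℝ) ≤ x),
        Real.log x * ArithmeticFunction.vonMangoldt n := by
        refine Finset.sum_le_sum fun n hn => ?_
        rw [Finset.mem_filter, Finset.mem_Icc] at hn
        have hn1 : (1 : ℝ) ≤ n := by exact_mod_cast hn.1.1
        rw [sq]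
        refine mul_le_mul_of_nonneg_right ?_ ArithmeticFunction.vonMangoldt_nonneg
        exact ArithmeticFunction.vonMangoldt_le_log.trans (Real.log_le_log (by linarith) hn.2)
    _ ≤ ∑ n ∈ Finset.Ioc 0 ⌊x⌋₊, Real.log x * ArithmeticFunction.vonMangoldt n := by
        refine Finset.sum_le_sum_of_subset_of_nonneg ?_ fun n _ _ =>
          mul_nonneg hlx ArithmeticFunction.vonMangoldt_nonneg
        intro n hn
        rw [Finset.mem_filter, Finset.mem_Icc] at hn
        rw [Finset.mem_Ioc]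
        exact ⟨hn.1.1, Nat.le_floor hn.2⟩
    _ = Real.log x * Chebyshev.psi x := by
        rw [← Finset.mul_sum]
        rfl
    _ ≤ Real.log x * ((Real.log 4 + 4) * x) :=
        mul_le_mul_of_nonneg_left (Chebyshev.psi_le_const_mul_self (by linarith)) hlx
    _ = c0 * (x * Real.log x) := by unfold c0; ring

/-- the Gaussian is smaller than an exponential -/
lemma gauss_le (x : ℝ) : Real.exp (-x ^ 2 / 2) ≤ Real.exp 2 * Real.exp (-(2 * x)) := by
  rw [← Real.exp_add]
  apply Real.exp_le_exp.2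
  nlinarith [sq_nonneg (x - 2)]

lemma sum_low (N : ℝ) (hN : 1 ≤ N) (X : ℕ) :
    ∑ n ∈ (Finset.Icc 1 X).filter (fun n : ℕ => (n : ℝ) ≤ N),
      ArithmeticFunction.vonMangoldt n ^ 2 / n * Real.exp (-(Real.log N - Real.log n) ^ 2 / 2) ≤
      Real.exp 2 * (c0 * Real.log N) := by
  have hN0 : 0 < N := by linarith
  calc ∑ n ∈ (Finset.Icc 1 X).filter (fun n : ℕ => (n : ℝ) ≤ N),
        ArithmeticFunction.vonMangoldt n ^ 2 / n * Real.exp (-(Real.log N - Real.log n) ^ 2 / 2)
      ≤ ∑ n ∈ (Finset.Icc 1 X).filter (fun n : ℕ => (n : ℝ) ≤ N),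
        Real.exp 2 / N * ArithmeticFunction.vonMangoldt n ^ 2 := by
        refine Finset.sum_le_sum fun n hn => ?_
        rw [Finset.mem_filter, Finset.mem_Icc] at hn
        have hn1 : (1 : ℝ) ≤ n := by exact_mod_cast hn.1.1
        have hn0 : (0 : ℝ) < n := by linarith
        have h1 := gauss_le (Real.log N - Real.log n)
        have h2 : Real.exp (-(2 * (Real.log N - Real.log n))) = ((n : ℝ) / N) ^ 2 := by
          rw [show -(2 * (Real.log N - Real.log n)) = 2 * (Real.log n - Real.log N) by ring,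
            ← Real.log_div hn0.ne' hN0.ne', ← Real.log_rpow (by positivity),
            Real.exp_log (by positivity)]
          norm_num
        rw [h2] at h1
        calc ArithmeticFunction.vonMangoldt n ^ 2 / n *
              Real.exp (-(Real.log N - Real.log n) ^ 2 / 2)
            ≤ ArithmeticFunction.vonMangoldt n ^ 2 / n * (Real.exp 2 * ((n : ℝ) / N) ^ 2) :=
              mul_le_mul_of_nonneg_left h1 (by positivity)
          _ = Real.exp 2 / N * ArithmeticFunction.vonMangoldt n ^ 2 * ((n : ℝ) / N) := by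
              field_simp
          _ ≤ Real.exp 2 / N * ArithmeticFunction.vonMangoldt n ^ 2 * 1 := by
              refine mul_le_mul_of_nonneg_left ?_ (by positivity)
              rw [div_le_one hN0]
              exact hn.2
          _ = Real.exp 2 / N * ArithmeticFunction.vonMangoldt n ^ 2 := mul_one _
    _ = Real.exp 2 / N * ∑ n ∈ (Finset.Icc 1 X).filter (fun n : ℕ => (n : ℝ) ≤ N),
        ArithmeticFunction.vonMangoldt n ^ 2 := by rw [Finset.mul_sum]
    _ ≤ Real.exp 2 / N * (c0 * (N * Real.log N)) :=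
        mul_le_mul_of_nonneg_left (S2 N hN X) (by positivity)
    _ = Real.exp 2 * (c0 * Real.log N) := by field_simp

lemma sum_half (K : ℕ) : ∑ k ∈ Finset.range K, ((1 : ℝ) / 2) ^ k ≤ 2 := by
  have h := sum_geometric_two_le K
  simpa using h

lemma sum_cube (N : ℝ) (hN : 1 ≤ N) (X : ℕ) :
    ∑ n ∈ (Finset.Icc 1 X).filter (fun n : ℕ => N < (n : ℝ)),
      ArithmeticFunction.vonMangoldt n ^ 2 / (n : ℝ) ^ 3 ≤
      4 * c0 * (1 + Real.log N) / N ^ 2 := by
  have hN0 : 0 < N := by linarith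
  have hlN : 0 ≤ Real.log N := Real.log_nonneg hN
  -- weights
  have h1 : ∀ n ∈ (Finset.Icc 1 X).filter (fun n : ℕ => N < (n : ℝ)),
      1 / (n : ℝ) ^ 3 ≤ ∑ k ∈ Finset.range X,
        if (n : ℝ) ≤ 2 ^ (k + 1) * N then 1 / (2 ^ k * N) ^ 3 else 0 := by
    intro n hn
    rw [Finset.mem_filter, Finset.mem_Icc] at hn
    have hn0 : (0 : ℝ) < n := by linarith
    have h2 : 1 ≤ (n : ℝ) / N := by
      rw [le_div_iff₀ hN0]
      linarith
    obtain ⟨k, hk1, hk2⟩ := exists_nat_pow_near h2 (by norm_num : (1 : ℝ) < 2)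
    rw [le_div_iff₀ hN0] at hk1
    rw [div_lt_iff₀ hN0] at hk2
    have hkX : k ∈ Finset.range X := by
      rw [Finset.mem_range]
      have h3 : (k : ℝ) < 2 ^ k := by exact_mod_cast Nat.lt_two_pow_self (n := k)
      have h4 : (2 : ℝ) ^ k ≤ 2 ^ k * N := le_mul_of_one_le_right (by positivity) hN
      have h5 : (n : ℝ) ≤ X := by exact_mod_cast hn.1.2
      have h6 : (k : ℝ) < X := by linarith
      exact_mod_cast h6
    refine le_trans ?_ (Finset.single_le_sum (f := fun k : ℕ =>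
      if (n : ℝ) ≤ 2 ^ (k + 1) * N then 1 / (2 ^ k * N) ^ 3 else 0) (fun j _ => ?_) hkX)
    · simp only [if_pos hk2.le]
      refine one_div_le_one_div_of_le (by positivity) ?_
      exact pow_le_pow_left₀ (by positivity) hk1 3
    · split_ifs
      · positivity
      · exact le_rfl
  calc ∑ n ∈ (Finset.Icc 1 X).filter (fun n : ℕ => N < (n : ℝ)),
        ArithmeticFunction.vonMangoldt n ^ 2 / (n : ℝ) ^ 3
      ≤ ∑ n ∈ (Finset.Icc 1 X).filter (fun n : ℕ => N < (n : ℝ)),
        ∑ k ∈ Finset.range X, ArithmeticFunction.vonMangoldt n ^ 2 *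
          (if (n : ℝ) ≤ 2 ^ (k + 1) * N then 1 / (2 ^ k * N) ^ 3 else 0) := by
        refine Finset.sum_le_sum fun n hn => ?_
        rw [← Finset.mul_sum, div_eq_mul_one_div]
        exact mul_le_mul_of_nonneg_left (h1 n hn) (by positivity)
    _ = ∑ k ∈ Finset.range X, ∑ n ∈ (Finset.Icc 1 X).filter (fun n : ℕ => N < (n : ℝ)),
        ArithmeticFunction.vonMangoldt n ^ 2 *
          (if (n : ℝ) ≤ 2 ^ (k + 1) * N then 1 / (2 ^ k * N) ^ 3 else 0) := Finset.sum_comm
    _ ≤ ∑ k ∈ Finset.range X, 2 * c0 * (1 + Real.log N) / N ^ 2 * (1 / 2) ^ k := by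
        refine Finset.sum_le_sum fun k _ => ?_
        have h2k : (1 : ℝ) ≤ 2 ^ (k + 1) := one_le_pow₀ (by norm_num)
        have hx : (1 : ℝ) ≤ 2 ^ (k + 1) * N := by nlinarith
        have h3 := S2 (2 ^ (k + 1) * N) hx X
        have hk1 : ((k : ℝ) + 1) ≤ 2 ^ k := by
          have := Nat.lt_two_pow_self (n := k)
          exact_mod_cast this
        have hlog : Real.log (2 ^ (k + 1) * N) ≤ 2 ^ k * (1 + Real.log N) := by
          rw [Real.log_mul (by positivity) (by positivity), Real.log_pow]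
          have h4 : Real.log 2 ≤ 1 := by
            have := Real.log_two_lt_d9
            linarith
          have h5 : (1 : ℝ) ≤ 2 ^ k := one_le_pow₀ (by norm_num)
          push_cast
          have h6 : ((k : ℝ) + 1) * Real.log 2 ≤ 2 ^ k * 1 :=
            mul_le_mul hk1 h4 (Real.log_nonneg (by norm_num)) (by positivity)
          have h7 : Real.log N ≤ 2 ^ k * Real.log N := le_mul_of_one_le_left hlN h5
          linarith
        calc ∑ n ∈ (Finset.Icc 1 X).filter (fun n : ℕ => N < (n : ℝ)),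
              ArithmeticFunction.vonMangoldt n ^ 2 *
                (if (n : ℝ) ≤ 2 ^ (k + 1) * N then 1 / (2 ^ k * N) ^ 3 else 0)
            ≤ ∑ n ∈ Finset.Icc 1 X, ArithmeticFunction.vonMangoldt n ^ 2 *
                (if (n : ℝ) ≤ 2 ^ (k + 1) * N then 1 / (2 ^ k * N) ^ 3 else 0) := by
              refine Finset.sum_le_sum_of_subset_of_nonneg (Finset.filter_subset _ _)
                fun n _ _ => mul_nonneg (by positivity) ?_
              split_ifs
              · positivity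
              · exact le_rfl
          _ = 1 / (2 ^ k * N) ^ 3 * ∑ n ∈ (Finset.Icc 1 X).filter
                (fun n : ℕ => (n : ℝ) ≤ 2 ^ (k + 1) * N), ArithmeticFunction.vonMangoldt n ^ 2 := by
              rw [Finset.mul_sum, Finset.sum_filter]
              refine Finset.sum_congr rfl fun n _ => ?_
              split_ifs
              · ring
              · ring
          _ ≤ 1 / (2 ^ k * N) ^ 3 * (c0 * (2 ^ (k + 1) * N * Real.log (2 ^ (k + 1) * N))) :=
              mul_le_mul_of_nonneg_left h3 (by positivity)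
          _ ≤ 1 / (2 ^ k * N) ^ 3 * (c0 * (2 ^ (k + 1) * N * (2 ^ k * (1 + Real.log N)))) := by
              have := c0_pos
              gcongr
          _ = 2 * c0 * (1 + Real.log N) / N ^ 2 * (1 / 2) ^ k := by
              rw [one_div_pow]
              field_simp
              ring
    _ = 2 * c0 * (1 + Real.log N) / N ^ 2 * ∑ k ∈ Finset.range X, ((1 : ℝ) / 2) ^ k := by
        rw [Finset.mul_sum]
    _ ≤ 2 * c0 * (1 + Real.log N) / N ^ 2 * 2 := by
        have := c0_pos
        exact mul_le_mul_of_nonneg_left (sum_half X) (by positivity)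
    _ = 4 * c0 * (1 + Real.log N) / N ^ 2 := by ring

lemma sum_high (N : ℝ) (hN : 1 ≤ N) (X : ℕ) :
    ∑ n ∈ (Finset.Icc 1 X).filter (fun n : ℕ => N < (n : ℝ)),
      ArithmeticFunction.vonMangoldt n ^ 2 / n * Real.exp (-(Real.log N - Real.log n) ^ 2 / 2) ≤
      Real.exp 2 * (4 * c0 * (1 + Real.log N)) := by
  have hN0 : 0 < N := by linarith
  calc ∑ n ∈ (Finset.Icc 1 X).filter (fun n : ℕ => N < (n : ℝ)),
        ArithmeticFunction.vonMangoldt n ^ 2 / n * Real.exp (-(Real.log N - Real.log n) ^ 2 / 2)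
      ≤ ∑ n ∈ (Finset.Icc 1 X).filter (fun n : ℕ => N < (n : ℝ)),
        Real.exp 2 * N ^ 2 * (ArithmeticFunction.vonMangoldt n ^ 2 / (n : ℝ) ^ 3) := by
        refine Finset.sum_le_sum fun n hn => ?_
        rw [Finset.mem_filter, Finset.mem_Icc] at hn
        have hn0 : (0 : ℝ) < n := by linarith
        have h1 := gauss_le (Real.log n - Real.log N)
        have h2 : Real.exp (-(2 * (Real.log n - Real.log N))) = (N / (n : ℝ)) ^ 2 := by
          rw [show -(2 * (Real.log n - Real.log N)) = 2 * (Real.log N - Real.log n) by ring,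
            ← Real.log_div hN0.ne' hn0.ne', ← Real.log_rpow (by positivity),
            Real.exp_log (by positivity)]
          norm_num
        rw [h2] at h1
        have h3 : -(Real.log n - Real.log N) ^ 2 / 2 = -(Real.log N - Real.log n) ^ 2 / 2 := by ring
        rw [h3] at h1
        calc ArithmeticFunction.vonMangoldt n ^ 2 / n *
              Real.exp (-(Real.log N - Real.log n) ^ 2 / 2)
            ≤ ArithmeticFunction.vonMangoldt n ^ 2 / n * (Real.exp 2 * (N / (n : ℝ)) ^ 2) :=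
              mul_le_mul_of_nonneg_left h1 (by positivity)
          _ = Real.exp 2 * N ^ 2 * (ArithmeticFunction.vonMangoldt n ^ 2 / (n : ℝ) ^ 3) := by
              field_simp
    _ = Real.exp 2 * N ^ 2 * ∑ n ∈ (Finset.Icc 1 X).filter (fun n : ℕ => N < (n : ℝ)),
        ArithmeticFunction.vonMangoldt n ^ 2 / (n : ℝ) ^ 3 := by rw [Finset.mul_sum]
    _ ≤ Real.exp 2 * N ^ 2 * (4 * c0 * (1 + Real.log N) / N ^ 2) :=
        mul_le_mul_of_nonneg_left (sum_cube N hN X) (by positivity)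
    _ = Real.exp 2 * (4 * c0 * (1 + Real.log N)) := by field_simp

/-- the sum over the prime powers near `e ^ v` -/
lemma sum_W (v : ℝ) (hv : 0 ≤ v) (X : ℕ) :
    ∑ n ∈ Finset.Icc 1 X, ArithmeticFunction.vonMangoldt n ^ 2 / n *
      Real.exp (-(v - Real.log n) ^ 2 / 2) ≤ 5 * Real.exp 2 * c0 * (1 + v) := by
  have hN : 1 ≤ Real.exp v := Real.one_le_exp hv
  have h1 := sum_low (Real.exp v) hN X
  have h2 := sum_high (Real.exp v) hN X
  rw [Real.log_exp] at h1 h2
  rw [← Finset.sum_filter_add_sum_filter_not (Finset.Icc 1 X) (fun n : ℕ => (n : ℝ) ≤ Real.exp v)]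
  have h3 : (Finset.Icc 1 X).filter (fun n : ℕ => ¬ (n : ℝ) ≤ Real.exp v) =
      (Finset.Icc 1 X).filter (fun n : ℕ => Real.exp v < (n : ℝ)) := by
    ext n
    simp only [Finset.mem_filter, not_le]
  rw [h3]
  have h4 : 0 ≤ Real.exp 2 * c0 := mul_nonneg (Real.exp_pos _).le c0_pos.le
  nlinarith

/-! ### the Gaussian integrals -/

/-- the Gaussian weight on the positive part -/
def hp (a u y ξ : ℝ) : ℝ := if 0 ≤ u + ξ * a then Real.exp (-(u + ξ * a - y) ^ 2 / 2) else 0

/-- the Gaussian weight on the negative part -/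
def hm (a u y ξ : ℝ) : ℝ := if 0 ≤ u + ξ * a then 0 else Real.exp (-(u + ξ * a + y) ^ 2 / 2)

lemma hp_nonneg (a u y ξ : ℝ) : 0 ≤ hp a u y ξ := by
  unfold hp
  split_ifs
  · exact (Real.exp_pos _).le
  · exact le_rfl

lemma hm_nonneg (a u y ξ : ℝ) : 0 ≤ hm a u y ξ := by
  unfold hm
  split_ifs
  · exact le_rfl
  · exact (Real.exp_pos _).le

lemma hp_le (a u y ξ : ℝ) : hp a u y ξ ≤ Real.exp (-(u + ξ * a - y) ^ 2 / 2) := by
  unfold hp
  split_ifs
  · exact le_rfl
  · exact (Real.exp_pos _).le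

lemma hm_le (a u y ξ : ℝ) : hm a u y ξ ≤ Real.exp (-(u + ξ * a + y) ^ 2 / 2) := by
  unfold hm
  split_ifs
  · exact (Real.exp_pos _).le
  · exact le_rfl

lemma meas_set (a u : ℝ) : MeasurableSet {ξ : ℝ | 0 ≤ u + ξ * a} :=
  measurableSet_le measurable_const (by fun_prop)

lemma hp_meas (a u y : ℝ) : Measurable (hp a u y) := by
  unfold hp
  exact Measurable.ite (meas_set a u) (by fun_prop) measurable_const

lemma hm_meas (a u y : ℝ) : Measurable (hm a u y) := by
  unfold hm
  exact Measurable.ite (meas_set a u) measurable_const (by fun_prop)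

lemma exp_sq_le_one (x : ℝ) : Real.exp (-x ^ 2 / 2) ≤ 1 := by
  apply Real.exp_le_one_iff.2
  nlinarith [sq_nonneg x]

/-- bounded measurable functions are integrable -/
lemma ii_of_bdd {f : ℝ → ℝ} (hf : Measurable f) (C : ℝ) (h : ∀ x, |f x| ≤ C) (p q : ℝ) :
    IntervalIntegrable f volume p q := by
  refine (intervalIntegrable_const (c := C)).mono_fun hf.aestronglyMeasurable ?_
  refine Filter.Eventually.of_forall fun x => ?_
  have h0 : 0 ≤ C := (abs_nonneg _).trans (h x)
  simp only [Real.norm_eq_abs, abs_of_nonneg h0]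
  exact h x

lemma hp_abs (a u y ξ : ℝ) : |hp a u y ξ| ≤ 1 := by
  rw [abs_of_nonneg (hp_nonneg _ _ _ _)]
  exact (hp_le _ _ _ _).trans (exp_sq_le_one _)

lemma hm_abs (a u y ξ : ℝ) : |hm a u y ξ| ≤ 1 := by
  rw [abs_of_nonneg (hm_nonneg _ _ _ _)]
  exact (hm_le _ _ _ _).trans (exp_sq_le_one _)

lemma hp_ii (a u y p q : ℝ) : IntervalIntegrable (hp a u y) volume p q :=
  ii_of_bdd (hp_meas a u y) 1 (hp_abs a u y) p q

lemma hm_ii (a u y p q : ℝ) : IntervalIntegrable (hm a u y) volume p q :=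
  ii_of_bdd (hm_meas a u y) 1 (hm_abs a u y) p q

/-- the Gaussian integral over an interval -/
lemma gauss_int (a w : ℝ) (ha : 0 < a) :
    ∫ ξ in (-1:ℝ)..1, Real.exp (-(w + ξ * a) ^ 2 / 2) ≤ Real.sqrt (2 * Real.pi) / a := by
  have h1 : ∀ ξ : ℝ, Real.exp (-(w + ξ * a) ^ 2 / 2) =
      Real.exp (-(a ^ 2 / 2) * (ξ - (-(w / a))) ^ 2) := by
    intro ξ
    congr 1
    field_simp
    ring
  have hb : 0 < a ^ 2 / 2 := by positivity
  have h2 : Integrable (fun ξ : ℝ => Real.exp (-(a ^ 2 / 2) * (ξ - (-(w / a))) ^ 2)) :=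
    (integrable_exp_neg_mul_sq hb).comp_sub_right _
  have h3 : ∫ ξ : ℝ, Real.exp (-(a ^ 2 / 2) * (ξ - (-(w / a))) ^ 2) = Real.sqrt (2 * Real.pi) / a := by
    rw [integral_sub_right_eq_self (fun ξ : ℝ => Real.exp (-(a ^ 2 / 2) * ξ ^ 2)), integral_gaussian]
    rw [show Real.pi / (a ^ 2 / 2) = 2 * Real.pi / a ^ 2 by field_simp, Real.sqrt_div (by positivity),
      Real.sqrt_sq ha.le]
  simp only [h1]
  rw [intervalIntegral.integral_of_le (by norm_num), ← h3]
  exact setIntegral_le_integral h2 (Filter.Eventually.of_forall fun _ => (Real.exp_pos _).le)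

lemma hp_int (a u y : ℝ) (ha : 0 < a) :
    ∫ ξ in (-1:ℝ)..1, hp a u y ξ ≤ Real.sqrt (2 * Real.pi) / a := by
  refine le_trans ?_ (gauss_int a (u - y) ha)
  refine intervalIntegral.integral_mono_on (by norm_num) (hp_ii a u y _ _)
    (Continuous.intervalIntegrable (by fun_prop) _ _) fun ξ _ => ?_
  have := hp_le a u y ξ
  rwa [show u + ξ * a - y = u - y + ξ * a by ring] at this

lemma hm_int (a u y : ℝ) (ha : 0 < a) :
    ∫ ξ in (-1:ℝ)..1, hm a u y ξ ≤ Real.sqrt (2 * Real.pi) / a := by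
  refine le_trans ?_ (gauss_int a (u + y) ha)
  refine intervalIntegral.integral_mono_on (by norm_num) (hm_ii a u y _ _)
    (Continuous.intervalIntegrable (by fun_prop) _ _) fun ξ _ => ?_
  have := hm_le a u y ξ
  rwa [show u + ξ * a + y = u + y + ξ * a by ring] at this

/-- the square of the coefficient -/
lemma sq_bound (K a I J : ℝ) (ha : 0 < a) (hJ0 : 0 ≤ J)
    (hJ : J ≤ Real.sqrt (2 * Real.pi) / a) (hI : |I| ≤ K * J) :
    (1 / Real.sqrt (2 * Real.pi) * I) ^ 2 ≤ K ^ 2 / (a * Real.sqrt (2 * Real.pi)) * J := by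
  have hs : 0 < Real.sqrt (2 * Real.pi) := by positivity
  have h1 : I ^ 2 ≤ (K * J) ^ 2 := by
    rw [← sq_abs I]
    exact pow_le_pow_left₀ (abs_nonneg _) hI 2
  have h2 : (K * J) ^ 2 ≤ K ^ 2 * (J * (Real.sqrt (2 * Real.pi) / a)) := by
    rw [mul_pow, sq J]
    exact mul_le_mul_of_nonneg_left (mul_le_mul_of_nonneg_left hJ hJ0) (by positivity)
  calc (1 / Real.sqrt (2 * Real.pi) * I) ^ 2 = (1 / Real.sqrt (2 * Real.pi)) ^ 2 * I ^ 2 := by ring
    _ ≤ (1 / Real.sqrt (2 * Real.pi)) ^ 2 * (K ^ 2 * (J * (Real.sqrt (2 * Real.pi) / a))) :=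
        mul_le_mul_of_nonneg_left (h1.trans h2) (by positivity)
    _ = K ^ 2 / (a * Real.sqrt (2 * Real.pi)) * J := by
        field_simp

lemma Gp_sq (B : ℝ → ℝ) (K a u y : ℝ) (hB : ∀ ξ, |B ξ| ≤ K) (ha : 0 < a) :
    Gp B a u y ^ 2 ≤ K ^ 2 / (a * Real.sqrt (2 * Real.pi)) * ∫ ξ in (-1:ℝ)..1, hp a u y ξ := by
  refine sq_bound K a _ _ ha ?_ (hp_int a u y ha) ?_
  · exact intervalIntegral.integral_nonneg (by norm_num) fun ξ _ => hp_nonneg _ _ _ _
  · have h1 : |∫ ξ in (-1:ℝ)..1, (if 0 ≤ u + ξ * a then B ξ * Real.exp (-(u + ξ * a - y) ^ 2 / 2)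
        else 0)| ≤ ∫ ξ in (-1:ℝ)..1, K * hp a u y ξ := by
      rw [← Real.norm_eq_abs]
      refine intervalIntegral.norm_integral_le_of_norm_le (by norm_num : (-1:ℝ) ≤ 1)
        (Filter.Eventually.of_forall fun ξ _ => ?_) ((hp_ii a u y _ _).const_mul K)
      unfold hp
      split_ifs
      · rw [Real.norm_eq_abs, abs_mul, abs_of_pos (Real.exp_pos _)]
        exact mul_le_mul_of_nonneg_right (hB ξ) (Real.exp_pos _).le
      · simp
    rwa [intervalIntegral.integral_const_mul] at h1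

lemma Gm_sq (B : ℝ → ℝ) (K a u y : ℝ) (hB : ∀ ξ, |B ξ| ≤ K) (ha : 0 < a) :
    Gm B a u y ^ 2 ≤ K ^ 2 / (a * Real.sqrt (2 * Real.pi)) * ∫ ξ in (-1:ℝ)..1, hm a u y ξ := by
  refine sq_bound K a _ _ ha ?_ (hm_int a u y ha) ?_
  · exact intervalIntegral.integral_nonneg (by norm_num) fun ξ _ => hm_nonneg _ _ _ _
  · have h1 : |∫ ξ in (-1:ℝ)..1, (if 0 ≤ u + ξ * a then 0 else
        B ξ * Real.exp (-(u + ξ * a + y) ^ 2 / 2))| ≤ ∫ ξ in (-1:ℝ)..1, K * hm a u y ξ := by
      rw [← Real.norm_eq_abs]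
      refine intervalIntegral.norm_integral_le_of_norm_le (by norm_num : (-1:ℝ) ≤ 1)
        (Filter.Eventually.of_forall fun ξ _ => ?_) ((hm_ii a u y _ _).const_mul K)
      unfold hm
      split_ifs
      · simp
      · rw [Real.norm_eq_abs, abs_mul, abs_of_pos (Real.exp_pos _)]
        exact mul_le_mul_of_nonneg_right (hB ξ) (Real.exp_pos _).le
    rwa [intervalIntegral.integral_const_mul] at h1

/-- the constant for the coefficient sums -/
def c1 : ℝ := 10 * Real.exp 2 * c0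

lemma c1_pos : 0 < c1 := by
  unfold c1
  have := c0_pos
  positivity

/-- the sum over the coefficients, from a pointwise bound -/
lemma sum_G (G : ℝ → ℝ) (h : ℝ → ℝ → ℝ) (K a V : ℝ) (ha : 1 ≤ a) (hV : 0 ≤ V) (X : ℕ)
    (hG : ∀ y, G y ^ 2 ≤ K ^ 2 / (a * Real.sqrt (2 * Real.pi)) * ∫ ξ in (-1:ℝ)..1, h y ξ)
    (hi : ∀ y, IntervalIntegrable (h y) volume (-1) 1)
    (hh : ∀ ξ ∈ Set.Icc (-1:ℝ) 1, ∑ n ∈ Finset.Icc 1 X, ArithmeticFunction.vonMangoldt n ^ 2 / n *
      h (Real.log n) ξ ≤ 5 * Real.exp 2 * c0 * (1 + V)) :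
    ∑ n ∈ Finset.Icc 1 X, ArithmeticFunction.vonMangoldt n ^ 2 / n * G (Real.log n) ^ 2 ≤
      c1 * K ^ 2 * ((1 + V) / a) := by
  have ha0 : 0 < a := by linarith
  have hs : 1 ≤ Real.sqrt (2 * Real.pi) := by
    rw [Real.one_le_sqrt]
    nlinarith [Real.pi_gt_three]
  calc ∑ n ∈ Finset.Icc 1 X, ArithmeticFunction.vonMangoldt n ^ 2 / n * G (Real.log n) ^ 2
      ≤ ∑ n ∈ Finset.Icc 1 X, ArithmeticFunction.vonMangoldt n ^ 2 / n *
        (K ^ 2 / (a * Real.sqrt (2 * Real.pi)) * ∫ ξ in (-1:ℝ)..1, h (Real.log n) ξ) :=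
        Finset.sum_le_sum fun n _ => mul_le_mul_of_nonneg_left (hG _) (by positivity)
    _ = K ^ 2 / (a * Real.sqrt (2 * Real.pi)) * ∫ ξ in (-1:ℝ)..1,
        ∑ n ∈ Finset.Icc 1 X, ArithmeticFunction.vonMangoldt n ^ 2 / n * h (Real.log n) ξ := by
        rw [intervalIntegral.integral_finsetSum fun n _ => (hi _).const_mul _, Finset.mul_sum]
        refine Finset.sum_congr rfl fun n _ => ?_
        rw [intervalIntegral.integral_const_mul]
        ring
    _ ≤ K ^ 2 / (a * Real.sqrt (2 * Real.pi)) * ∫ ξ in (-1:ℝ)..1, 5 * Real.exp 2 * c0 * (1 + V) := by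
        refine mul_le_mul_of_nonneg_left ?_ (by positivity)
        refine intervalIntegral.integral_mono_on (by norm_num) ?_ intervalIntegrable_const hh
        have h1 : (fun ξ : ℝ => ∑ n ∈ Finset.Icc 1 X,
            ArithmeticFunction.vonMangoldt n ^ 2 / n * h (Real.log n) ξ) =
            ∑ n ∈ Finset.Icc 1 X, fun ξ : ℝ =>
              ArithmeticFunction.vonMangoldt n ^ 2 / n * h (Real.log n) ξ := by
          ext ξ
          rw [Finset.sum_apply]
        rw [h1]
        exact IntervalIntegrable.sum _ fun n _ => (hi _).const_mul _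
    _ = c1 * K ^ 2 * ((1 + V) / a) / Real.sqrt (2 * Real.pi) := by
        rw [intervalIntegral.integral_const]
        unfold c1
        simp only [smul_eq_mul]
        field_simp
        ring
    _ ≤ c1 * K ^ 2 * ((1 + V) / a) := by
        have := c1_pos
        exact div_le_self (by positivity) hs

lemma sum_Gp (B : ℝ → ℝ) (K a u : ℝ) (hB : ∀ ξ, |B ξ| ≤ K) (ha : 1 ≤ a) (hu : 0 ≤ u) (X : ℕ) :
    ∑ n ∈ Finset.Icc 1 X, ArithmeticFunction.vonMangoldt n ^ 2 / n * Gp B a u (Real.log n) ^ 2 ≤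
      2 * c1 * K ^ 2 * (1 + u / a) := by
  have ha0 : 0 < a := by linarith
  have h1 := sum_G (Gp B a u) (hp a u) K a (u + a) ha (by positivity) X
    (fun y => Gp_sq B K a u y hB ha0) (fun y => hp_ii a u y _ _) ?_
  · refine h1.trans ?_
    have h2 : (1 + (u + a)) / a ≤ 2 * (1 + u / a) := by
      rw [div_le_iff₀ ha0]
      have : 2 * (1 + u / a) * a = 2 * a + 2 * u := by field_simp
      rw [this]
      linarith
    have := c1_pos
    calc c1 * K ^ 2 * ((1 + (u + a)) / a) ≤ c1 * K ^ 2 * (2 * (1 + u / a)) :=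
          mul_le_mul_of_nonneg_left h2 (by positivity)
      _ = 2 * c1 * K ^ 2 * (1 + u / a) := by ring
  · intro ξ hξ
    by_cases h : 0 ≤ u + ξ * a
    · have h3 := sum_W (u + ξ * a) h X
      have h4 : 0 ≤ 5 * Real.exp 2 * c0 := by
        have := c0_pos
        positivity
      have h5 : u + ξ * a ≤ u + a := by nlinarith [hξ.2]
      simp only [hp, if_pos h]
      exact h3.trans (mul_le_mul_of_nonneg_left (by linarith) h4)
    · simp only [hp, if_neg h, mul_zero, Finset.sum_const_zero]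
      have := c0_pos
      positivity

lemma sum_Gm (B : ℝ → ℝ) (K a u : ℝ) (hB : ∀ ξ, |B ξ| ≤ K) (ha : 1 ≤ a) (hu : 0 ≤ u) (X : ℕ) :
    ∑ n ∈ Finset.Icc 1 X, ArithmeticFunction.vonMangoldt n ^ 2 / n * Gm B a u (Real.log n) ^ 2 ≤
      2 * c1 * K ^ 2 * (1 + u / a) := by
  have ha0 : 0 < a := by linarith
  have h1 := sum_G (Gm B a u) (hm a u) K a a ha ha0.le X
    (fun y => Gm_sq B K a u y hB ha0) (fun y => hm_ii a u y _ _) ?_
  · refine h1.trans ?_
    have h2 : (1 + a) / a ≤ 2 * (1 + u / a) := by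
      rw [div_le_iff₀ ha0]
      have : 2 * (1 + u / a) * a = 2 * a + 2 * u := by field_simp
      rw [this]
      linarith
    have := c1_pos
    calc c1 * K ^ 2 * ((1 + a) / a) ≤ c1 * K ^ 2 * (2 * (1 + u / a)) :=
          mul_le_mul_of_nonneg_left h2 (by positivity)
      _ = 2 * c1 * K ^ 2 * (1 + u / a) := by ring
  · intro ξ hξ
    by_cases h : 0 ≤ u + ξ * a
    · simp only [hm, if_pos h, mul_zero, Finset.sum_const_zero]
      have := c0_pos
      positivity
    · have h' : 0 ≤ -(u + ξ * a) := by linarith [not_le.1 h]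
      have h3 := sum_W (-(u + ξ * a)) h' X
      have h4 : 0 ≤ 5 * Real.exp 2 * c0 := by
        have := c0_pos
        positivity
      have h5 : -(u + ξ * a) ≤ a := by nlinarith [hξ.1]
      have h6 : ∀ y : ℝ, Real.exp (-(u + ξ * a + y) ^ 2 / 2) =
          Real.exp (-(-(u + ξ * a) - y) ^ 2 / 2) := by
        intro y
        congr 1
        ring
      simp only [hm, if_neg h, h6]
      exact h3.trans (mul_le_mul_of_nonneg_left (by linarith) h4)

end

end Pool.Agent.Y274.SW
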