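import Pool.Agent.Y745.SW.DefsB
import Pool.Agent.Y274.SW.Coef

set_option autoImplicit false

/-!
SW project, SM: the mean square of the local sum minus its main term.
-/

namespace Pool.Agent.Y274.SW

open Filter Topology MeasureTheory Complex Pool.Agent.Y745.SW

noncomputable section

/-- a Dirichlet polynomial -/
def DD (X : ℕ) (b : ℕ → ℂ) (t : ℝ) : ℂ := ∑ n ∈ Finset.Icc 1 X, b n * (n : ℂ) ^ (-(t : ℂ) * I)

lemma DD_cont (X : ℕ) (b : ℕ → ℂ) : Continuous (DD X b) := by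
  unfold DD
  refine continuous_finsetSum _ fun n hn => ?_
  have hn0 : (n : ℂ) ≠ 0 := by
    have := (Finset.mem_Icc.1 hn).1
    exact_mod_cast (by omega : n ≠ 0)
  refine continuous_const.mul ?_
  exact Continuous.const_cpow (by fun_prop) (Or.inl hn0)

lemma mv (h : P_MVB) (X : ℕ) (T1 T2 : ℝ) (hT : T1 ≤ T2) (b : ℕ → ℂ) :
    ∫ t in T1..T2, ‖DD X b t‖ ^ 2 ≤
      (T2 - T1 + 8 * X * (1 + Real.log X)) * ∑ n ∈ Finset.Icc 1 X, ‖b n‖ ^ 2 := by
  have h1 := h X T1 T2 hT b b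
  have e1 : ∀ z : ℂ, z * (starRingEnd ℂ) z = ((‖z‖ ^ 2 : ℝ) : ℂ) := fun z => by
    rw [Complex.mul_conj, Complex.normSq_eq_norm_sq]
  simp only [e1] at h1
  rw [intervalIntegral.integral_ofReal, ← Complex.ofReal_sum, ← Complex.ofReal_mul,
    ← Complex.ofReal_sub, Complex.norm_real, Real.norm_eq_abs,
    Real.mul_self_sqrt (Finset.sum_nonneg fun n _ => by positivity)] at h1
  have h2 := (abs_le.1 h1).2
  unfold DD
  linarith

lemma coef_sq (c : ℕ → ℂ) (hc : ∀ n, ‖c n‖ ≤ ArithmeticFunction.vonMangoldt n) (g : ℝ) (n : ℕ) :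
    ‖c n * ((Real.sqrt n)⁻¹ * g : ℝ)‖ ^ 2 ≤ ArithmeticFunction.vonMangoldt n ^ 2 / n * g ^ 2 := by
  rw [norm_mul, Complex.norm_real, Real.norm_eq_abs, mul_pow, sq_abs, mul_pow, inv_pow,
    Real.sq_sqrt (Nat.cast_nonneg n)]
  have h1 : ‖c n‖ ^ 2 ≤ ArithmeticFunction.vonMangoldt n ^ 2 :=
    pow_le_pow_left₀ (norm_nonneg _) (hc n) 2
  calc ‖c n‖ ^ 2 * ((n : ℝ)⁻¹ * g ^ 2)
      ≤ ArithmeticFunction.vonMangoldt n ^ 2 * ((n : ℝ)⁻¹ * g ^ 2) :=
        mul_le_mul_of_nonneg_right h1 (by positivity)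
    _ = ArithmeticFunction.vonMangoldt n ^ 2 / n * g ^ 2 := by rw [div_eq_mul_inv]; ring

lemma conj_cpow (n : ℕ) (hn : n ≠ 0) (t : ℝ) :
    (starRingEnd ℂ) ((n : ℂ) ^ ((t : ℂ) * I)) = (n : ℂ) ^ (-(t : ℂ) * I) := by
  have hn0 : (n : ℂ) ≠ 0 := by exact_mod_cast hn
  rw [Complex.cpow_def_of_ne_zero hn0, Complex.cpow_def_of_ne_zero hn0, ← Complex.exp_conj,
    ← Complex.natCast_log, map_mul, map_mul, Complex.conj_ofReal, Complex.conj_ofReal,
    Complex.conj_I]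
  congr 1
  ring

lemma DPm_norm (c : ℕ → ℂ) (B : ℝ → ℝ) (a u : ℝ) (X : ℕ) (t : ℝ) :
    ‖DPm c B a u X t‖ = ‖DD X (fun n => c n * ((Real.sqrt n)⁻¹ * Gm B a u (Real.log n) : ℝ)) t‖ := by
  rw [← RCLike.norm_conj (DPm c B a u X t)]
  congr 1
  unfold DPm DD
  rw [map_sum]
  refine Finset.sum_congr rfl fun n hn => ?_
  have hn0 : n ≠ 0 := by
    have := (Finset.mem_Icc.1 hn).1
    omega
  rw [map_mul, map_mul, conj_cpow n hn0 t, Complex.conj_conj, Complex.conj_ofReal]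

lemma DPp_eq (c : ℕ → ℂ) (B : ℝ → ℝ) (a u : ℝ) (X : ℕ) (t : ℝ) :
    DPp c B a u X t = DD X (dp c B a u) t := rfl

/-- the three terms -/
lemma sq_three (x y z w : ℝ) (hx : 0 ≤ x) (h : x ≤ y + z + w) :
    x ^ 2 ≤ 3 * (y ^ 2 + z ^ 2 + w ^ 2) := by
  have h1 : x ^ 2 ≤ (y + z + w) ^ 2 := pow_le_pow_left₀ hx h 2
  nlinarith [sq_nonneg (y - z), sq_nonneg (z - w), sq_nonneg (y - w)]

lemma ev_X (ε : ℝ) (hε : 0 < ε) (hε1 : ε < 1 / 2) :
    ∀ᶠ T : ℝ in atTop, 8 * (XT ε T : ℝ) * (1 + Real.log (XT ε T)) ≤ T := by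
  have h1 : ∀ᶠ T : ℝ in atTop, 8 * (1 + Real.log T) ≤ T ^ (ε / 4) := by
    have h2 := (isLittleO_log_rpow_atTop (by positivity : 0 < ε / 4)).bound
      (by norm_num : (0 : ℝ) < 1 / 16)
    have h3 := (tendsto_rpow_atTop (by positivity : 0 < ε / 4)).eventually_ge_atTop (16 : ℝ)
    filter_upwards [h2, h3, eventually_ge_atTop (1 : ℝ)] with T h4 h5 h6
    rw [Real.norm_eq_abs, Real.norm_eq_abs, abs_of_nonneg (Real.log_nonneg h6),
      abs_of_nonneg (by positivity)] at h4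
    linarith
  filter_upwards [h1, eventually_ge_atTop (1 : ℝ)] with T h2 h3
  have hT : 0 < T := by linarith
  have h4 : (XT ε T : ℝ) ≤ T ^ (1 - ε / 4) := Nat.floor_le (by positivity)
  have h5 : Real.log (XT ε T) ≤ Real.log T := by
    rcases Nat.eq_zero_or_pos (XT ε T) with h0 | h0
    · rw [h0, Nat.cast_zero, Real.log_zero]
      exact Real.log_nonneg h3
    · refine Real.log_le_log (by exact_mod_cast h0) (h4.trans ?_)
      calc T ^ (1 - ε / 4) ≤ T ^ (1 : ℝ) := Real.rpow_le_rpow_of_exponent_le h3 (by linarith)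
        _ = T := Real.rpow_one T
  have h6 : 0 ≤ Real.log T := Real.log_nonneg h3
  calc 8 * (XT ε T : ℝ) * (1 + Real.log (XT ε T))
      ≤ 8 * (XT ε T : ℝ) * (1 + Real.log T) :=
        mul_le_mul_of_nonneg_left (by linarith) (by positivity)
    _ = (XT ε T : ℝ) * (8 * (1 + Real.log T)) := by ring
    _ ≤ T ^ (1 - ε / 4) * T ^ (ε / 4) := mul_le_mul h4 h2 (by positivity) (by positivity)
    _ = T := by
        rw [← Real.rpow_add hT]
        norm_num

end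

theorem t_SM : P_MVB → P_EF → P_SM := by
  intro hMV hEF
  have hc1 := c1_pos
  refine ⟨3 + 24 * c1, by positivity, ?_⟩
  intro ε τ hε hε1 hτ hτε c C0 B K hBc hBe hBK
  obtain ⟨C1, hC1, hE⟩ := hEF ε τ hε hε1 hτ hτε c C0
  have hK : 0 ≤ K := (abs_nonneg _).trans (hBK 0)
  have hlog := Real.tendsto_log_atTop
  filter_upwards [hE B K hBc hBe hBK, ev_X ε hε hε1, hlog.eventually_ge_atTop (1 / τ),
    hlog.eventually_ge_atTop C1, hlog.eventually_ge_atTop 1,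
    (Real.isLittleO_log_id_atTop.bound (by norm_num : (0 : ℝ) < 1 / 2)),
    eventually_ge_atTop (1 : ℝ)] with T h1 h2 h3 h4 h5 h6 h7
  intro U1 U2 hEFD u hu0 hu1
  have hT : 0 < T := by linarith
  set L := Real.log T with hL
  have hL0 : 0 < L := by linarith
  have h6' : 2 * L ≤ T := by
    have : |L| ≤ 1 / 2 * |T| := h6
    rw [abs_of_pos hL0, abs_of_pos hT] at this
    linarith
  have hT12 : T + L ≤ 2 * T - L := by linarith
  have ha : 1 ≤ τ * L := by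
    rw [div_le_iff₀ hτ] at h3
    linarith
  have hCL : (C1 * K / L) ^ 2 ≤ K ^ 2 := by
    refine pow_le_pow_left₀ (by positivity) ?_ 2
    rw [div_le_iff₀ hL0]
    nlinarith
  have hua : 0 ≤ u / (τ * L) := by positivity
  have hR0 : 0 ≤ K ^ 2 * (T * (1 + u / (τ * L))) := by positivity
  -- the coefficient sums
  have hc := hEFD.hc
  have s1 : ∑ n ∈ Finset.Icc 1 (XT ε T), ‖dp c B (τ * L) u n‖ ^ 2 ≤
      2 * c1 * K ^ 2 * (1 + u / (τ * L)) :=
    (Finset.sum_le_sum fun n _ => coef_sq c hc _ n).trans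
      (sum_Gp B K (τ * L) u hBK ha hu0 (XT ε T))
  have s2 : ∑ n ∈ Finset.Icc 1 (XT ε T),
      ‖c n * ((Real.sqrt n)⁻¹ * Gm B (τ * L) u (Real.log n) : ℝ)‖ ^ 2 ≤
      2 * c1 * K ^ 2 * (1 + u / (τ * L)) :=
    (Finset.sum_le_sum fun n _ => coef_sq c hc _ n).trans
      (sum_Gm B K (τ * L) u hBK ha hu0 (XT ε T))
  -- the mean squares
  have hm : ∀ b : ℕ → ℂ, ∑ n ∈ Finset.Icc 1 (XT ε T), ‖b n‖ ^ 2 ≤
      2 * c1 * K ^ 2 * (1 + u / (τ * L)) →
      ∫ t in (T + L)..(2 * T - L), ‖DD (XT ε T) b t‖ ^ 2 ≤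
        4 * c1 * (K ^ 2 * (T * (1 + u / (τ * L)))) := by
    intro b hb
    have h8 := mv hMV (XT ε T) (T + L) (2 * T - L) hT12 b
    have h9 : 0 ≤ ∑ n ∈ Finset.Icc 1 (XT ε T), ‖b n‖ ^ 2 :=
      Finset.sum_nonneg fun n _ => by positivity
    calc ∫ t in (T + L)..(2 * T - L), ‖DD (XT ε T) b t‖ ^ 2
        ≤ (2 * T) * ∑ n ∈ Finset.Icc 1 (XT ε T), ‖b n‖ ^ 2 := by
          refine h8.trans (mul_le_mul_of_nonneg_right ?_ h9)
          linarith
      _ ≤ (2 * T) * (2 * c1 * K ^ 2 * (1 + u / (τ * L))) :=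
          mul_le_mul_of_nonneg_left hb (by positivity)
      _ = 4 * c1 * (K ^ 2 * (T * (1 + u / (τ * L)))) := by ring
  have m1 := hm _ s1
  have m2 := hm _ s2
  by_cases hint : IntervalIntegrable (fun t : ℝ => ‖St B (τ * L) U1 U2 u t -
      cexp (I * u * t) * (Mu B (τ * L) L u : ℝ)‖ ^ 2) volume (T + L) (2 * T - L)
  swap
  · rw [intervalIntegral.integral_undef hint]
    have : (3 + 24 * c1) * K ^ 2 * (T * (1 + u / (τ * L))) =
        (3 + 24 * c1) * (K ^ 2 * (T * (1 + u / (τ * L)))) := by ring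
    rw [this]
    positivity
  set b2 : ℕ → ℂ := fun n => c n * ((Real.sqrt n)⁻¹ * Gm B (τ * L) u (Real.log n) : ℝ) with hb2
  have hci1 : IntervalIntegrable (fun t : ℝ => ‖DD (XT ε T) (dp c B (τ * L) u) t‖ ^ 2) volume
      (T + L) (2 * T - L) :=
    Continuous.intervalIntegrable ((DD_cont _ _).norm.pow 2) _ _
  have hci2 : IntervalIntegrable (fun t : ℝ => ‖DD (XT ε T) b2 t‖ ^ 2) volume
      (T + L) (2 * T - L) :=
    Continuous.intervalIntegrable ((DD_cont _ _).norm.pow 2) _ _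
  have hpt : ∀ t ∈ Set.Icc (T + L) (2 * T - L), ‖St B (τ * L) U1 U2 u t -
      cexp (I * u * t) * (Mu B (τ * L) L u : ℝ)‖ ^ 2 ≤
      3 * ((C1 * K / L) ^ 2 + ‖DD (XT ε T) (dp c B (τ * L) u) t‖ ^ 2 +
        ‖DD (XT ε T) b2 t‖ ^ 2) := by
    intro t ht
    refine sq_three _ _ _ _ (norm_nonneg _) ?_
    have h8 := h1 U1 U2 hEFD t u ht.1 ht.2 hu0 hu1
    have e1 : St B (τ * L) U1 U2 u t - cexp (I * u * t) * (Mu B (τ * L) L u : ℝ) =
        (St B (τ * L) U1 U2 u t - cexp (I * u * t) * ((Mu B (τ * L) L u : ℝ) -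
          DPp c B (τ * L) u (XT ε T) t - DPm c B (τ * L) u (XT ε T) t)) -
        cexp (I * u * t) * DPp c B (τ * L) u (XT ε T) t -
        cexp (I * u * t) * DPm c B (τ * L) u (XT ε T) t := by ring
    have e2 : ‖cexp (I * u * t)‖ = 1 := by
      rw [Complex.norm_exp]
      simp
    rw [e1]
    refine (norm_sub_le _ _).trans ?_
    refine add_le_add ((norm_sub_le _ _).trans (add_le_add h8 ?_)) ?_
    · rw [norm_mul, e2, one_mul, DPp_eq]
    · rw [norm_mul, e2, one_mul, DPm_norm]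
  have hcc : IntervalIntegrable (fun _ : ℝ => (C1 * K / L) ^ 2) volume (T + L) (2 * T - L) :=
    intervalIntegrable_const
  calc ∫ t in (T + L)..(2 * T - L), ‖St B (τ * L) U1 U2 u t -
        cexp (I * u * t) * (Mu B (τ * L) L u : ℝ)‖ ^ 2
      ≤ ∫ t in (T + L)..(2 * T - L), 3 * ((C1 * K / L) ^ 2 +
          ‖DD (XT ε T) (dp c B (τ * L) u) t‖ ^ 2 + ‖DD (XT ε T) b2 t‖ ^ 2) :=
        intervalIntegral.integral_mono_on hT12 hint
          (((hcc.add hci1).add hci2).const_mul 3) hpt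
    _ = 3 * ((2 * T - L - (T + L)) * (C1 * K / L) ^ 2 +
          (∫ t in (T + L)..(2 * T - L), ‖DD (XT ε T) (dp c B (τ * L) u) t‖ ^ 2) +
          ∫ t in (T + L)..(2 * T - L), ‖DD (XT ε T) b2 t‖ ^ 2) := by
        rw [intervalIntegral.integral_const_mul, intervalIntegral.integral_add (hcc.add hci1) hci2,
          intervalIntegral.integral_add hcc hci1, intervalIntegral.integral_const, smul_eq_mul]
    _ ≤ 3 * (T * K ^ 2 + 4 * c1 * (K ^ 2 * (T * (1 + u / (τ * L)))) +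
          4 * c1 * (K ^ 2 * (T * (1 + u / (τ * L))))) := by
        refine mul_le_mul_of_nonneg_left (add_le_add (add_le_add ?_ m1) m2) (by norm_num)
        exact mul_le_mul (by linarith) hCL (by positivity) hT.le
    _ ≤ (3 + 24 * c1) * K ^ 2 * (T * (1 + u / (τ * L))) := by
        have h10 : T * K ^ 2 ≤ K ^ 2 * (T * (1 + u / (τ * L))) := by
          have : 0 ≤ K ^ 2 * (T * (u / (τ * L))) := by positivity
          nlinarith
        nlinarith

end Pool.Agent.Y274.SW
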